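import Pool.Agent.J4H64.VC.Main

set_option autoImplicit false

/-!
# Constant-depth circuits of polynomial size do not approximate vertex cover within 2 - ε

The definitions used in the statement are in `Pool/Agent/J4H64/VC/Defs.lean` (`IsCover`, `tau`,
`MaxDeg`, `bit`, `sel`, `avg`); circuits (`Circuit`, `nodeVal`, `nodeDepth`, `Pairs`, `adjBits`) are
those of `Pool/Agent/H568R2/Defs.lean`.

The circuits have NOT gates and AND and OR gates of unbounded fan-in and read the adjacency bits of
a graph with `n` vertices. There are two random graphs of bounded degree, one bipartite and one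
without independent sets of `ε n` vertices, which they cannot tell apart.

Idea of the proof. Let `B` be a fixed graph of bounded degree, large girth and small independence
number. The vertices `(v, x)`, `v` a vertex of `B` and `x` a label, are joined along random matchings
above the edges of `B`; the graph is a disjoint union of copies of `B` in one case and of bipartite
double covers of `B` in the other. The labels are divided into groups and the groups are switched
one by one (hybrid argument). Gate by gate, all but a fraction `n ^ (-K')` of the namings of the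
labels make every gate a function with unambiguous certificates of constant size once only the
labels of a small set of groups are hidden (an encoding argument as in the switching lemma), and
certificates smaller than the girth do not see whether a group is switched.
-/

namespace Pool.Agent.Results.MP_cff830_lc.ConstantDepthCircuits

open Finset DomAC0 Pool.Agent.J4H64.VC
open scoped Classical

theorem avg_le {Ω : Type} [Fintype Ω] [Nonempty Ω] {f : Ω → ℝ} {c : ℝ} (h : ∀ ω, f ω ≤ c) :
    avg f ≤ c := by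
  unfold avg
  have h1 : (0 : ℝ) < Fintype.card Ω := by exact_mod_cast Fintype.card_pos
  rw [div_le_iff₀ h1]
  refine (sum_le_sum fun ω _ => h ω).trans ?_
  rw [sum_const, card_univ, nsmul_eq_mul, mul_comm]

theorem le_avg {Ω : Type} [Fintype Ω] [Nonempty Ω] {f : Ω → ℝ} {c : ℝ} (h : ∀ ω, c ≤ f ω) :
    c ≤ avg f := by
  unfold avg
  have h1 : (0 : ℝ) < Fintype.card Ω := by exact_mod_cast Fintype.card_pos
  rw [le_div_iff₀ h1]
  refine le_trans ?_ (sum_le_sum fun ω _ => h ω)
  rw [sum_const, card_univ, nsmul_eq_mul, mul_comm]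

theorem avg_lin {Ω I : Type} [Fintype Ω] [Nonempty Ω] [Fintype I] (b : I → Ω → ℝ) (w : I → ℝ)
    (w₀ : ℝ) : avg (fun ω => w₀ + ∑ i, w i * b i ω) = w₀ + ∑ i, w i * avg (b i) := by
  unfold avg
  have h1 : (Fintype.card Ω : ℝ) ≠ 0 := by exact_mod_cast Fintype.card_ne_zero
  rw [sum_add_distrib, sum_const, card_univ, nsmul_eq_mul, sum_comm, add_div,
    mul_div_cancel_left₀ _ h1, sum_div]
  congr 1
  refine sum_congr rfl fun i _ => ?_
  rw [← mul_sum, mul_div_assoc]

/-- the estimate for linear combinations of nodes -/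
theorem lin {n : ℕ} {Ω : Type} [Fintype Ω] [Nonempty Ω] (G₀ G₁ : Ω → SimpleGraph (Fin n))
    (C : Circuit (Pairs n)) {I : Type} [Fintype I] (out : I → Pairs n ⊕ Fin C.size)
    (w : I → ℝ) (w₀ δ : ℝ)
    (h : ∀ i, |avg (fun ω => bit C (out i) (G₀ ω)) - avg (fun ω => bit C (out i) (G₁ ω))| ≤ δ) :
    avg (fun ω => w₀ + ∑ i, w i * bit C (out i) (G₀ ω)) ≤
      avg (fun ω => w₀ + ∑ i, w i * bit C (out i) (G₁ ω)) + (∑ i, |w i|) * δ := by
  rw [avg_lin (fun i ω => bit C (out i) (G₀ ω)), avg_lin (fun i ω => bit C (out i) (G₁ ω)),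
    sum_mul, add_assoc, ← sum_add_distrib]
  refine add_le_add_right (sum_le_sum fun i _ => ?_) _
  have h1 : w i * (avg (fun ω => bit C (out i) (G₀ ω)) - avg (fun ω => bit C (out i) (G₁ ω))) ≤
      |w i| * δ := by
    refine (le_abs_self _).trans ?_
    rw [abs_mul]
    exact mul_le_mul_of_nonneg_left (h i) (abs_nonneg _)
  linarith

theorem card_sel {n : ℕ} (C : Circuit (Pairs n)) (out : Fin n → Pairs n ⊕ Fin C.size)
    (G : SimpleGraph (Fin n)) :
    ((sel C out G).card : ℝ) = 0 + ∑ i, 1 * bit C (out i) G := by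
  unfold sel bit
  rw [zero_add, natCast_card_filter]
  exact sum_congr rfl fun i _ => (one_mul _).symm

/-- For every `0 < ε ≤ 1` there is a degree bound `Δ` such that for all `d` and `K` and all large
`n` the following holds.

First, there are two random graphs `G₀` and `G₁` with `n` vertices and maximum degree at most `Δ`
(uniformly distributed families with a common index set) such that `G₁` is always bipartite, `G₀`
never has an independent set with more than `ε n` vertices, and for every circuit with at most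
`n ^ K` gates every node of depth at most `d` takes the value one with the same probability on both
up to `1 / n ^ K`.

Second, let `C` be a circuit with at most `n ^ K` gates. No linear combination of nodes of depth at
most `d` with real coefficients of absolute sum at most `n ^ K` satisfies
`τ(G) ≤ w₀ + Σ w i * bit i (G) ≤ (2 - ε) τ(G)` for all graphs `G` with `n` vertices and maximum
degree at most `Δ`, where `τ(G)` is the least size of a vertex cover.

Third, no `n` nodes of depth at most `d` output, for all graphs `G` with `n` vertices and maximum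
degree at most `Δ`, the characteristic vector of a vertex cover with at most `(2 - ε) τ(G)`
vertices. -/
theorem result (ε : ℝ) (hε : 0 < ε) (hε1 : ε ≤ 1) : ∃ Δ : ℕ, ∀ d K : ℕ, ∃ n₀ : ℕ, ∀ n ≥ n₀,
    (∃ (Ω : Type) (_ : Fintype Ω) (_ : Nonempty Ω) (G₀ G₁ : Ω → SimpleGraph (Fin n)),
      (∀ ω, MaxDeg Δ (G₀ ω) ∧ MaxDeg Δ (G₁ ω)) ∧
      (∀ ω, (G₁ ω).Colorable 2) ∧
      (∀ ω (I : Finset (Fin n)), (∀ u ∈ I, ∀ v ∈ I, ¬ (G₀ ω).Adj u v) →
        (I.card : ℝ) ≤ ε * n) ∧
      ∀ C : Circuit (Pairs n), C.size ≤ n ^ K → ∀ v, C.nodeDepth v ≤ d →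
        |avg (fun ω => bit C v (G₀ ω)) - avg (fun ω => bit C v (G₁ ω))| ≤ 1 / (n : ℝ) ^ K) ∧
    ∀ C : Circuit (Pairs n), C.size ≤ n ^ K →
      (∀ (I : Type) [Fintype I] (out : I → Pairs n ⊕ Fin C.size) (w : I → ℝ) (w₀ : ℝ),
        (∀ i, C.nodeDepth (out i) ≤ d) → ∑ i, |w i| ≤ (n : ℝ) ^ K →
        ∃ G, MaxDeg Δ G ∧ ¬ ((tau G : ℝ) ≤ w₀ + ∑ i, w i * bit C (out i) G ∧
          w₀ + ∑ i, w i * bit C (out i) G ≤ (2 - ε) * tau G)) ∧
      ∀ out : Fin n → Pairs n ⊕ Fin C.size, (∀ i, C.nodeDepth (out i) ≤ d) →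
        ∃ G, MaxDeg Δ G ∧
          ¬ (IsCover G (sel C out G) ∧ ((sel C out G).card : ℝ) ≤ (2 - ε) * tau G) := by
  obtain ⟨Δ, hΔ⟩ := counts (ε / 4) (by linarith)
  refine ⟨Δ, fun d K => ?_⟩
  obtain ⟨n₁, hn₁⟩ := hΔ d (K + 1)
  obtain ⟨n₂, hn₂⟩ := exists_nat_gt (8 / ε)
  refine ⟨n₁ + n₂ + 1, fun n hn => ?_⟩
  obtain ⟨Ω, i1, i2, G₀, G₁, h1, h2, h3, h4⟩ := hn₁ n (by omega)
  have hn1 : 1 ≤ n := by omega
  have hn1R : (1 : ℝ) ≤ n := by exact_mod_cast hn1
  have hnn : (8 / ε : ℝ) < n := hn₂.trans_le (by exact_mod_cast (by omega : n₂ ≤ n))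
  have hεn : 8 < ε * n := by
    rw [div_lt_iff₀ hε] at hnn
    linarith
  have hsz : n ^ K ≤ n ^ (K + 1) := Nat.pow_le_pow_right hn1 (Nat.le_succ K)
  have hpK : (0 : ℝ) < (n : ℝ) ^ K := by positivity
  have hpK1 : (1 : ℝ) ≤ (n : ℝ) ^ K := one_le_pow₀ hn1R
  -- the covers
  have hτ₁ : ∀ ω, (tau (G₁ ω) : ℝ) ≤ n / 2 := by
    intro ω
    have h5 := tau_bip (h1 ω)
    have h6 : ((2 * tau (G₁ ω) : ℕ) : ℝ) ≤ n := by exact_mod_cast h5
    push_cast at h6
    linarith
  have hτ₀ : ∀ ω, (1 - ε / 4) * n ≤ (tau (G₀ ω) : ℝ) := by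
    intro ω
    obtain ⟨A, hA, hc⟩ := exists_tau (G₀ ω)
    have h5 := h2 ω Aᶜ (by
      intro u hu v hv huv
      rw [mem_compl] at hu hv
      rcases hA u v huv with h | h
      · exact hu h
      · exact hv h)
    have h6 : A.card ≤ n := (card_le_univ A).trans (by rw [Fintype.card_fin])
    rw [card_compl, Fintype.card_fin, Nat.cast_sub h6, hc] at h5
    linarith
  -- linear combinations
  have hlin : ∀ C : Circuit (Pairs n), C.size ≤ n ^ K →
      ∀ (I : Type) [Fintype I] (out : I → Pairs n ⊕ Fin C.size) (w : I → ℝ) (w₀ : ℝ),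
        (∀ i, C.nodeDepth (out i) ≤ d) → ∑ i, |w i| ≤ (n : ℝ) ^ (K + 1) →
        (∀ G, MaxDeg Δ G → (tau G : ℝ) ≤ w₀ + ∑ i, w i * bit C (out i) G ∧
          w₀ + ∑ i, w i * bit C (out i) G ≤ (2 - ε) * tau G) → False := by
    intro C hC I _ out w w₀ hd hw hcon
    have h5 := lin G₀ G₁ C out w w₀ (1 / (n : ℝ) ^ (K + 1))
      (fun i => h4 C (hC.trans hsz) (out i) (hd i))
    have h6 : (∑ i, |w i|) * (1 / (n : ℝ) ^ (K + 1)) ≤ 1 := by
      rw [mul_one_div, div_le_one (by positivity)]
      exact hw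
    have h7 : (1 - ε / 4) * n ≤ avg (fun ω => w₀ + ∑ i, w i * bit C (out i) (G₀ ω)) :=
      le_avg fun ω => (hτ₀ ω).trans (hcon _ (h3 ω).1).1
    have h8 : avg (fun ω => w₀ + ∑ i, w i * bit C (out i) (G₁ ω)) ≤ (2 - ε) * (n / 2) :=
      avg_le fun ω => (hcon _ (h3 ω).2).2.trans
        (mul_le_mul_of_nonneg_left (hτ₁ ω) (by linarith))
    nlinarith
  refine ⟨⟨Ω, i1, i2, G₀, G₁, h3, h1, fun ω I hI => ?_, fun C hC v hv => ?_⟩, fun C hC => ⟨?_, ?_⟩⟩
  · have h5 := h2 ω I hI
    have h6 : (0 : ℝ) ≤ n := by linarith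
    nlinarith
  · refine (h4 C (hC.trans hsz) v hv).trans ?_
    exact one_div_le_one_div_of_le hpK (pow_le_pow_right₀ hn1R (Nat.le_succ K))
  · intro I _ out w w₀ hd hw
    by_contra hcon
    refine hlin C hC I out w w₀ hd (hw.trans (pow_le_pow_right₀ hn1R (Nat.le_succ K))) ?_
    intro G hG
    by_contra h
    exact hcon ⟨G, hG, h⟩
  · intro out hd
    by_contra hcon
    refine hlin C hC (Fin n) out (fun _ => 1) 0 hd ?_ ?_
    · simp only [abs_one, sum_const, card_univ, Fintype.card_fin, nsmul_eq_mul, mul_one]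
      rw [pow_succ]
      nlinarith
    · intro G hG
      have h5 : IsCover G (sel C out G) ∧ ((sel C out G).card : ℝ) ≤ (2 - ε) * tau G := by
        by_contra h
        exact hcon ⟨G, hG, h⟩
      rw [← card_sel]
      exact ⟨by exact_mod_cast tau_le h5.1, h5.2⟩

end Pool.Agent.Results.MP_cff830_lc.ConstantDepthCircuits
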