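import Pool.Agent.J4H64.PC.Main

set_option autoImplicit false
set_option linter.unusedVariables false

/-!
# Perceptrons of quasipolynomial size do not approximate vertex cover within 2 - ε

The definitions used in the statement are in `Pool/Agent/J4H64/PC/Defs.lean` (`Conj`, `Tru`, `pv`,
`NearBip`), `Pool/Agent/J4H64/LD/Defs.lean` (`SmallInd`, `CoverDist`) and
`Pool/Agent/J4H64/VC/Defs.lean` (`IsCover`, `tau`).

Idea of the proof. Let `B` be a graph with between `n ^ a` and `√n` vertices (`a > 0` a constant),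
bounded degree, girth larger than `c log n` and small independence number. Take disjoint copies of
`B`, or disjoint bipartite double covers of `B`, with random names inside the fibre of each vertex
of `B`, and join `δ n` hubs to all vertices. The places of the fibres and of the hubs are given by a
fixed permutation, chosen at random: with probability `1 - n ^ (- c log n)`, a given conjunction
either is false for all these graphs (a pair of its negative part contains a hub, or a pair of its
positive part contains no hub and does not lie over an edge of `B`), or its value depends only on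
the names over at most `c log n` edges of `B`. These edges form a forest, and over a forest the
double cover is trivial, so the conjunction is true with the same probability in both cases.
-/

namespace Pool.Agent.Results.MP_cff830_lc.QuasipolynomialPerceptrons

open Finset DomAC0 Pool.Agent.J4H64.VC Pool.Agent.J4H64.LD Pool.Agent.J4H64.PC
open scoped Classical

theorem avg_le {Ω : Type} [Fintype Ω] [Nonempty Ω] {f : Ω → ℝ} {c : ℝ} (h : ∀ ω, f ω ≤ c) :
    avg f ≤ c := by
  unfold avg
  have h1 : (0 : ℝ) < Fintype.card Ω := by exact_mod_cast Fintype.card_pos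
  rw [div_le_iff₀ h1]
  refine (sum_le_sum fun ω _ => h ω).trans ?_
  rw [sum_const, card_univ, nsmul_eq_mul, mul_comm]

theorem lt_avg {Ω : Type} [Fintype Ω] [Nonempty Ω] {f : Ω → ℝ} {c : ℝ} (h : ∀ ω, c < f ω) :
    c < avg f := by
  unfold avg
  have h1 : (0 : ℝ) < Fintype.card Ω := by exact_mod_cast Fintype.card_pos
  rw [lt_div_iff₀ h1]
  refine lt_of_le_of_lt (le_of_eq ?_) (sum_lt_sum_of_nonempty univ_nonempty fun ω _ => h ω)
  rw [sum_const, card_univ, nsmul_eq_mul, mul_comm]

theorem pv_eq {n : ℕ} (p : Conj n →₀ ℝ) (G : SimpleGraph (Fin n)) :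
    pv p G = ∑ t, p t * (if Tru t G then 1 else 0) := by
  unfold pv
  rw [Finsupp.sum_fintype _ _ (by intro i; simp)]
  refine sum_congr rfl fun t _ => ?_
  split_ifs
  · rw [mul_one]
  · rw [mul_zero]

theorem avg_eq {n : ℕ} {Ω : Type} [Fintype Ω] {G₀ G₁ : Ω → SimpleGraph (Fin n)}
    (p : Conj n →₀ ℝ) (h : ∀ t ∈ p.support, (univ.filter fun ω => Tru t (G₀ ω)).card =
      (univ.filter fun ω => Tru t (G₁ ω)).card) :
    avg (fun ω => pv p (G₀ ω)) = avg (fun ω => pv p (G₁ ω)) := by
  unfold avg
  congr 1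
  simp only [pv_eq]
  conv_lhs => rw [sum_comm]
  conv_rhs => rw [sum_comm]
  refine sum_congr rfl fun t _ => ?_
  rw [← mul_sum, ← mul_sum]
  by_cases ht : t ∈ p.support
  · rw [← natCast_card_filter, ← natCast_card_filter, h t ht]
  · rw [Finsupp.notMem_support_iff.1 ht, zero_mul, zero_mul]

theorem pv_comb {n : ℕ} (p r : Conj n →₀ ℝ) (a : ℝ) (G : SimpleGraph (Fin n)) :
    pv (p - a • r) G = pv p G - a * pv r G := by
  rw [pv_eq, pv_eq, pv_eq, mul_sum, ← sum_sub_distrib]
  refine sum_congr rfl fun t _ => ?_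
  rw [Finsupp.sub_apply, Finsupp.smul_apply, smul_eq_mul]
  ring

theorem pv_sum {n : ℕ} (p : Fin n → Conj n →₀ ℝ) (G : SimpleGraph (Fin n)) :
    pv (∑ v, p v) G = ∑ v, pv (p v) G := by
  simp only [pv_eq]
  rw [sum_comm]
  refine sum_congr rfl fun t _ => ?_
  rw [Finsupp.finsetSum_apply, sum_mul]

theorem pv_one {n : ℕ} (G : SimpleGraph (Fin n)) :
    pv (Finsupp.single ((∅, ∅) : Conj n) (1 : ℝ)) G = 1 := by
  unfold pv
  rw [Finsupp.sum_single_index (by simp)]
  exact if_pos ⟨fun e he => absurd he (notMem_empty _), fun e he => absurd he (notMem_empty _)⟩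

theorem tau_ge {n : ℕ} {ε : ℝ} {G : SimpleGraph (Fin n)} (h : SmallInd ε G) :
    (1 - ε) * n ≤ (tau G : ℝ) := by
  obtain ⟨A, hA, hcA⟩ := exists_tau G
  have h5 := h Aᶜ (by
    intro u hu v hv huv
    rw [mem_compl] at hu hv
    rcases hA u v huv with h | h
    · exact hu h
    · exact hv h)
  have h6 : A.card ≤ n := (card_le_univ A).trans (by rw [Fintype.card_fin])
  rw [card_compl, Fintype.card_fin, Nat.cast_sub h6, hcA] at h5
  linarith

theorem tau_near {n : ℕ} {ε : ℝ} {G : SimpleGraph (Fin n)} (h : NearBip ε G) :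
    (tau G : ℝ) ≤ (1 / 2 + ε) * n := by
  obtain ⟨Z, hZ, c, hc⟩ := h
  have hcov : ∀ b : Bool, IsCover G (Z ∪ univ.filter fun v => c v = b) := by
    intro b u v huv
    by_contra hcon
    push Not at hcon
    rw [mem_union, mem_union, not_or, not_or, mem_filter, mem_filter] at hcon
    have h1 := hc u v hcon.1.1 hcon.2.1 huv
    have h2 : c u ≠ b := fun h => hcon.1.2 ⟨mem_univ _, h⟩
    have h3 : c v ≠ b := fun h => hcon.2.2 ⟨mem_univ _, h⟩
    apply h1
    cases hu : c u <;> cases hv : c v <;> cases b <;> simp_all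
  have h1 := (tau_le (hcov true)).trans (card_union_le _ _)
  have h2 := (tau_le (hcov false)).trans (card_union_le _ _)
  have h3 : (univ.filter fun v => c v = true).card + (univ.filter fun v => c v = false).card ≤
      n := by
    rw [← card_union_of_disjoint]
    · refine (card_le_univ _).trans (by rw [Fintype.card_fin])
    · refine disjoint_left.2 fun u hu hu' => ?_
      have h4 := (mem_filter.1 hu).2
      have h5 := (mem_filter.1 hu').2
      rw [h4] at h5
      exact absurd h5 (by decide)
  have h4 : 2 * tau G ≤ 2 * Z.card + n := by omega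
  have h5 : (2 : ℝ) * tau G ≤ 2 * Z.card + n := by exact_mod_cast h4
  linarith

/-- For every `0 < ε ≤ 1` there is `c > 0` such that the following holds for all large `n`. A
perceptron is a linear combination, with arbitrary real weights, of at most `n ^ (c log n)`
conjunctions of adjacency bits and their negations of a graph with `n` vertices; the conjunctions
may have any length.

(1) For all sets `𝓣` of at most `n ^ (c log n)` conjunctions there are two random graphs `G₀`, `G₁`
with `n` vertices (uniformly distributed families with a common index set) such that `G₀` never has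
an independent set of more than `ε n` vertices, `G₁` always becomes bipartite after the removal of
at most `ε n` vertices, and every member of `𝓣` is true with exactly the same probability for both.

(2) No perceptron is nonpositive on all graphs which become bipartite after the removal of at most
`ε n` vertices and positive on all graphs without independent sets of more than `ε n` vertices.

(3) No quotient `p / r` of perceptrons, with `r > 0` on all graphs, satisfies `τ ≤ p / r` on all
graphs without independent sets of more than `ε n` vertices and `p / r ≤ (2 - ε) τ` on all graphs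
which become bipartite after the removal of at most `ε n` vertices (`τ` is the vertex cover number).

(4) Consider a randomised procedure which gives a vertex cover of every graph. If for every vertex
the probability that it is taken is the value of a perceptron, then the mean size of the cover is
larger than `(2 - ε) τ` for some graph. -/
theorem result (ε : ℝ) (hε : 0 < ε) (hε1 : ε ≤ 1) : ∃ c : ℝ, 0 < c ∧ ∃ n₀ : ℕ, ∀ n ≥ n₀,
    (∀ 𝓣 : Finset (Conj n), (𝓣.card : ℝ) ≤ (n : ℝ) ^ (c * Real.log n) →
      ∃ (Ω : Type) (_ : Fintype Ω) (_ : Nonempty Ω) (G₀ G₁ : Ω → SimpleGraph (Fin n)),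
      (∀ ω, SmallInd ε (G₀ ω)) ∧ (∀ ω, NearBip ε (G₁ ω)) ∧
      ∀ t ∈ 𝓣, (univ.filter fun ω => Tru t (G₀ ω)).card =
        (univ.filter fun ω => Tru t (G₁ ω)).card) ∧
    (∀ p : Conj n →₀ ℝ, (p.support.card : ℝ) ≤ (n : ℝ) ^ (c * Real.log n) →
      ∃ G, (NearBip ε G ∧ 0 < pv p G) ∨ (SmallInd ε G ∧ pv p G ≤ 0)) ∧
    (∀ p r : Conj n →₀ ℝ, (p.support.card : ℝ) ≤ (n : ℝ) ^ (c * Real.log n) →
      (r.support.card : ℝ) ≤ (n : ℝ) ^ (c * Real.log n) → (∀ G, 0 < pv r G) →
      ∃ G, (NearBip ε G ∧ (2 - ε) * tau G < pv p G / pv r G) ∨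
        (SmallInd ε G ∧ pv p G / pv r G < tau G)) ∧
    ∀ (p : Fin n → Conj n →₀ ℝ) (μ : SimpleGraph (Fin n) → Finset (Fin n) → ℝ),
      (∀ v, ((p v).support.card : ℝ) ≤ (n : ℝ) ^ (c * Real.log n)) →
      (∀ G, CoverDist G (μ G)) → (∀ G v, ∑ A with v ∈ A, μ G A = pv (p v) G) →
      ∃ G, (2 - ε) * tau G < ∑ A, μ G A * (A.card : ℝ) := by
  obtain ⟨c₁, hc₁, n₁, hn₁⟩ := family (ε / 8) (by linarith)
  obtain ⟨c, hc⟩ : ∃ c, c = c₁ / 4 := ⟨_, rfl⟩
  have hc0 : 0 < c := by rw [hc]; linarith
  have hcc : c₁ = 2 * (2 * c) := by rw [hc]; ring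
  obtain ⟨n₂, hn₂⟩ := exists_nat_gt (Real.exp (1 / c))
  refine ⟨c, hc0, n₁ + n₂ + 2, fun n hn => ?_⟩
  have hn2 : 2 ≤ n := by omega
  have hnR2 : (2 : ℝ) ≤ n := by exact_mod_cast hn2
  have hnR : (1 : ℝ) ≤ n := by linarith
  have hlog : 1 ≤ c * Real.log n := by
    have h1 : (n₂ : ℝ) ≤ n := by exact_mod_cast (by omega : n₂ ≤ n)
    have h2 : Real.exp (1 / c) ≤ n := hn₂.le.trans h1
    have h3 : 1 / c ≤ Real.log n := by
      rw [Real.le_log_iff_exp_le (by linarith)]
      exact h2
    rw [div_le_iff₀ hc0] at h3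
    linarith
  -- the size bound
  obtain ⟨s, hs⟩ : ∃ s : ℝ, s = (n : ℝ) ^ (c * Real.log n) := ⟨_, rfl⟩
  have hns : (n : ℝ) ≤ s := by
    rw [hs]
    calc (n : ℝ) = (n : ℝ) ^ (1 : ℝ) := (Real.rpow_one _).symm
      _ ≤ _ := Real.rpow_le_rpow_of_exponent_le hnR hlog
  have hs4 : s * s * (s * s) = Real.exp (c₁ * Real.log n ^ 2) := by
    rw [hs, Real.rpow_def_of_pos (by linarith), ← Real.exp_add, ← Real.exp_add, hcc]
    congr 1
    ring
  rw [← hs]
  have hs0 : 0 ≤ s := by linarith
  have hs1 : 1 ≤ s := by linarith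
  have hss : s ≤ s * s := by nlinarith
  have hsss : s * s ≤ s * s * (s * s) := by
    have h1 : 1 ≤ s * s := by nlinarith
    nlinarith
  have mono1 : ∀ G : SimpleGraph (Fin n), SmallInd (ε / 8) G → SmallInd ε G := by
    intro G hG I hI
    refine (hG I hI).trans ?_
    nlinarith
  have mono2 : ∀ G : SimpleGraph (Fin n), NearBip (ε / 8) G → NearBip ε G := by
    rintro G ⟨Z, hZ, c, hc⟩
    refine ⟨Z, hZ.trans ?_, c, hc⟩
    nlinarith
  -- linear combinations
  have pol : ∀ P : Conj n →₀ ℝ, (P.support.card : ℝ) ≤ s * s * (s * s) →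
      ∃ (Ω : Type) (_ : Fintype Ω) (_ : Nonempty Ω) (G₀ G₁ : Ω → SimpleGraph (Fin n)),
      (∀ ω, SmallInd (ε / 8) (G₀ ω)) ∧ (∀ ω, NearBip (ε / 8) (G₁ ω)) ∧
      avg (fun ω => pv P (G₀ ω)) = avg (fun ω => pv P (G₁ ω)) := by
    intro P hP
    rw [hs4] at hP
    obtain ⟨Ω, i1, i2, G₀, G₁, h1, h2, h3⟩ := hn₁ n (by omega) P.support hP
    exact ⟨Ω, i1, i2, G₀, G₁, h1, h2, avg_eq P h3⟩
  have part3 : ∀ p r : Conj n →₀ ℝ, (p.support.card : ℝ) ≤ s * s → (r.support.card : ℝ) ≤ s * s →
      (∀ G, 0 < pv r G) → ∃ G, (NearBip ε G ∧ (2 - ε) * tau G < pv p G / pv r G) ∨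
        (SmallInd ε G ∧ pv p G / pv r G < tau G) := by
    intro p r hp hr hpos
    by_contra hcon
    push Not at hcon
    obtain ⟨Ω, i1, i2, G₀, G₁, h1, h2, h5⟩ := pol (p - ((1 - ε / 4) * n) • r) (by
      have h6 : (p - ((1 - ε / 4) * n) • r).support.card ≤ p.support.card + r.support.card :=
        (card_le_card (Finsupp.support_sub.trans (union_subset_union (Subset.refl _)
          Finsupp.support_smul))).trans (card_union_le _ _)
      have h7 : ((p - ((1 - ε / 4) * n) • r).support.card : ℝ) ≤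
          p.support.card + r.support.card := by exact_mod_cast h6
      have h8 : (2 : ℝ) ≤ s * s := by nlinarith
      nlinarith)
    have h6 : avg (fun ω => pv (p - ((1 - ε / 4) * n) • r) (G₁ ω)) ≤ 0 := by
      refine avg_le fun ω => ?_
      rw [pv_comb]
      have h7 := (hcon (G₁ ω)).1 (mono2 _ (h2 ω))
      have h8 := hpos (G₁ ω)
      rw [div_le_iff₀ h8] at h7
      have h9 : (2 - ε) * (tau (G₁ ω) : ℝ) ≤ (1 - ε / 4) * n := by
        have h10 := tau_near (h2 ω)
        have h11 : (2 - ε) * (tau (G₁ ω) : ℝ) ≤ (2 - ε) * ((1 / 2 + ε / 8) * n) :=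
          mul_le_mul_of_nonneg_left h10 (by linarith)
        nlinarith [mul_nonneg (mul_nonneg hε.le hε.le) (by linarith : (0 : ℝ) ≤ n)]
      have h10 := mul_le_mul_of_nonneg_right h9 h8.le
      linarith
    have h7 : 0 < avg (fun ω => pv (p - ((1 - ε / 4) * n) • r) (G₀ ω)) := by
      refine lt_avg fun ω => ?_
      rw [pv_comb]
      have h7 := (hcon (G₀ ω)).2 (mono1 _ (h1 ω))
      have h8 := hpos (G₀ ω)
      rw [le_div_iff₀ h8] at h7
      have h9 : (1 - ε / 4) * n < (tau (G₀ ω) : ℝ) := by
        have := tau_ge (h1 ω)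
        nlinarith
      have h10 := mul_lt_mul_of_pos_right h9 h8
      linarith
    linarith
  refine ⟨?_, ?_, ?_, ?_⟩
  · intro 𝓣 h𝓣
    obtain ⟨Ω, i1, i2, G₀, G₁, h1, h2, h3⟩ := hn₁ n (by omega) 𝓣 (by
      rw [← hs4]
      linarith)
    exact ⟨Ω, i1, i2, G₀, G₁, fun ω => mono1 _ (h1 ω), fun ω => mono2 _ (h2 ω), h3⟩
  · intro p hp
    by_contra hcon
    push Not at hcon
    obtain ⟨Ω, i1, i2, G₀, G₁, h1, h2, h5⟩ := pol p (by linarith)
    have h6 : avg (fun ω => pv p (G₁ ω)) ≤ 0 :=
      avg_le fun ω => (hcon (G₁ ω)).1 (mono2 _ (h2 ω))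
    have h7 : 0 < avg (fun ω => pv p (G₀ ω)) :=
      lt_avg fun ω => (hcon (G₀ ω)).2 (mono1 _ (h1 ω))
    linarith
  · intro p r hp hr hpos
    exact part3 p r (by linarith) (by linarith) hpos
  · intro p μ hp hμ hpμ
    have hsum : ∀ G, pv (∑ v, p v) G = ∑ A, μ G A * (A.card : ℝ) := by
      intro G
      rw [pv_sum, sum_congr rfl fun v _ => (hpμ G v).symm]
      simp only [sum_filter]
      rw [sum_comm]
      refine sum_congr rfl fun A _ => ?_
      rw [← sum_filter, sum_const, nsmul_eq_mul, mul_comm]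
      congr 2
      rw [filter_mem_eq_inter, univ_inter]
    have hsz : ((∑ v, p v).support.card : ℝ) ≤ s * s := by
      have h5 : (∑ v, p v).support.card ≤ ∑ v, (p v).support.card :=
        (card_le_card Finsupp.support_finsetSum).trans card_biUnion_le
      have h6 : ((∑ v, p v).support.card : ℝ) ≤ ∑ v, ((p v).support.card : ℝ) := by
        exact_mod_cast h5
      refine h6.trans ((sum_le_sum fun v _ => hp v).trans ?_)
      rw [sum_const, card_univ, Fintype.card_fin, nsmul_eq_mul]
      exact mul_le_mul_of_nonneg_right hns hs0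
    have hsz1 : ((Finsupp.single ((∅, ∅) : Conj n) (1 : ℝ)).support.card : ℝ) ≤ s * s := by
      have h5 : (Finsupp.single ((∅, ∅) : Conj n) (1 : ℝ)).support.card ≤ 1 :=
        (card_le_card Finsupp.support_single_subset).trans (card_singleton _).le
      have h6 : ((Finsupp.single ((∅, ∅) : Conj n) (1 : ℝ)).support.card : ℝ) ≤ 1 := by
        exact_mod_cast h5
      linarith
    obtain ⟨G, h5 | h5⟩ := part3 (∑ v, p v) (Finsupp.single ((∅, ∅) : Conj n) (1 : ℝ)) hsz hsz1
      (fun G => by rw [pv_one]; exact one_pos)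
    · rw [pv_one, div_one, hsum G] at h5
      exact ⟨G, h5.2⟩
    · exfalso
      rw [pv_one, div_one, hsum G] at h5
      have h6 : (tau G : ℝ) ≤ ∑ A, μ G A * (A.card : ℝ) := by
        obtain ⟨h7, h8, h9⟩ := hμ G
        calc (tau G : ℝ) = ∑ A, μ G A * (tau G : ℝ) := by rw [← sum_mul, h8, one_mul]
          _ ≤ _ := by
            refine sum_le_sum fun A _ => ?_
            by_cases h10 : μ G A = 0
            · rw [h10, zero_mul, zero_mul]
            · refine mul_le_mul_of_nonneg_left ?_ (h7 A)
              exact_mod_cast tau_le (h9 A h10)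
      linarith [h5.2]

end Pool.Agent.Results.MP_cff830_lc.QuasipolynomialPerceptrons
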