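import Pool.Agent.J4H64.LS.Family
import Pool.Agent.J4H64.LS.Defs
import Pool.Agent.J4H64.LS.Trace

set_option autoImplicit false

/-!
# Sparse rational functions do not approximate vertex cover within 2 - ε

The definitions used in the statement are in `Pool/Agent/J4H64/LS/Defs.lean` (`Few`),
`Pool/Agent/J4H64/LD/Defs.lean` (`ev`, `SmallInd`, `CoverDist`) and
`Pool/Agent/J4H64/VC/Defs.lean` (`IsCover`, `tau`, `MaxDeg`).

Idea of the proof. Let `B` be a graph with between `n ^ a` and `√n` vertices (`a > 0` a constant),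
bounded degree, girth larger than `c log n` and small independence number. Disjoint copies of `B`
and disjoint bipartite double covers of `B`, with random names of the vertices, contain every given
set of at most `c log n` pairs among their edges with the same probability: these pairs come from a
forest in `B`, on which the double cover is trivial. A set of more pairs which is contained in some
graph of bounded degree contains a matching of a constant times `log n` pairs; if the vertices are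
distributed to the vertices of `B` at random, then with probability `1 - n ^ (- c log n)` one of
these pairs does not lie over an edge of `B`, and the set is contained in none of the graphs.
-/

namespace Pool.Agent.Results.MP_cff830_lc.QuasipolynomialSparseFunctions

open Finset DomAC0 Pool.Agent.J4H64.VC Pool.Agent.J4H64.LD Pool.Agent.J4H64.LS
open scoped Classical

theorem avg_le {Ω : Type} [Fintype Ω] [Nonempty Ω] {f : Ω → ℝ} {c : ℝ} (h : ∀ ω, f ω ≤ c) :
    avg f ≤ c := by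
  unfold avg
  have h1 : (0 : ℝ) < Fintype.card Ω := by exact_mod_cast Fintype.card_pos
  rw [div_le_iff₀ h1]
  refine (sum_le_sum fun ω _ => h ω).trans ?_
  rw [sum_const, card_univ, nsmul_eq_mul, mul_comm]

theorem lt_avg {Ω : Type} [Fintype Ω] [Nonempty Ω] {f : Ω → ℝ} {c : ℝ} (h : ∀ ω, c < f ω) :
    c < avg f := by
  unfold avg
  have h1 : (0 : ℝ) < Fintype.card Ω := by exact_mod_cast Fintype.card_pos
  rw [lt_div_iff₀ h1]
  refine lt_of_le_of_lt (le_of_eq ?_) (sum_lt_sum_of_nonempty univ_nonempty fun ω _ => h ω)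
  rw [sum_const, card_univ, nsmul_eq_mul, mul_comm]

theorem avg_eq {n : ℕ} {Ω : Type} [Fintype Ω] {G₀ G₁ : Ω → SimpleGraph (Fin n)}
    (p : MvPolynomial (Pairs n) ℝ)
    (h : ∀ m ∈ p.support, (univ.filter fun ω => ∀ e ∈ m.support, (G₀ ω).Adj e.1.1 e.1.2).card =
      (univ.filter fun ω => ∀ e ∈ m.support, (G₁ ω).Adj e.1.1 e.1.2).card) :
    avg (fun ω => ev p (G₀ ω)) = avg (fun ω => ev p (G₁ ω)) := by
  unfold avg
  congr 1
  unfold ev
  simp only [MvPolynomial.eval_eq, mono_val]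
  rw [sum_comm, sum_comm (s := univ)]
  refine sum_congr rfl fun m hm => ?_
  rw [← mul_sum, ← mul_sum, ← natCast_card_filter, ← natCast_card_filter, h m hm]

theorem ev_comb {n : ℕ} (p r : MvPolynomial (Pairs n) ℝ) (a : ℝ) (G : SimpleGraph (Fin n)) :
    ev (p - MvPolynomial.C a * r) G = ev p G - a * ev r G := by
  unfold ev
  rw [map_sub, map_mul, MvPolynomial.eval_C]

/-- the large monomials -/
noncomputable def lg {n : ℕ} (c : ℝ) (p : MvPolynomial (Pairs n) ℝ) : Finset (Pairs n →₀ ℕ) :=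
  p.support.filter fun m => c * Real.log n < (m.support.card : ℝ)

theorem lg_card {n : ℕ} {c : ℝ} {p : MvPolynomial (Pairs n) ℝ} (h : Few c p) :
    ((lg c p).card : ℝ) ≤ (n : ℝ) ^ (c * Real.log n) := h

theorem few_mono {n : ℕ} {c c' : ℝ} (hcc : c ≤ c') (hn : (1 : ℝ) ≤ n)
    {p : MvPolynomial (Pairs n) ℝ} (h : Few c p) : Few c' p := by
  have hl := Real.log_nonneg hn
  have h1 : c * Real.log n ≤ c' * Real.log n := mul_le_mul_of_nonneg_right hcc hl
  have h2 : (lg c' p).card ≤ (lg c p).card := card_le_card fun m hm => by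
    unfold lg at hm ⊢
    rw [mem_filter] at hm ⊢
    exact ⟨hm.1, lt_of_le_of_lt h1 hm.2⟩
  have h3 : ((lg c' p).card : ℝ) ≤ (lg c p).card := by exact_mod_cast h2
  exact h3.trans ((lg_card h).trans (Real.rpow_le_rpow_of_exponent_le hn h1))

theorem two_pow {n : ℕ} (c : ℝ) (hn : (1 : ℝ) ≤ n) : (n : ℝ) ^ (c * Real.log n) *
    (n : ℝ) ^ (c * Real.log n) = (n : ℝ) ^ (2 * c * Real.log n) := by
  rw [← Real.rpow_add (by linarith)]
  congr 1
  ring

theorem few_comb {n : ℕ} {c : ℝ} (hc : 0 ≤ c) (hn : (1 : ℝ) ≤ n)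
    (h2 : (2 : ℝ) ≤ (n : ℝ) ^ (c * Real.log n)) {p r : MvPolynomial (Pairs n) ℝ} (a : ℝ)
    (hp : Few c p) (hr : Few c r) : Few (2 * c) (p - MvPolynomial.C a * r) := by
  have hl := Real.log_nonneg hn
  have h1 : c * Real.log n ≤ 2 * c * Real.log n :=
    mul_le_mul_of_nonneg_right (by linarith) hl
  have h3 : lg (2 * c) (p - MvPolynomial.C a * r) ⊆ lg c p ∪ lg c r := by
    intro m hm
    unfold lg at hm ⊢
    rw [mem_filter] at hm
    rw [mem_union, mem_filter, mem_filter]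
    have h4 := h1.trans_lt hm.2
    rcases mem_union.1 (MvPolynomial.support_sub _ _ _ hm.1) with h5 | h5
    · exact Or.inl ⟨h5, h4⟩
    · rw [MvPolynomial.C_mul'] at h5
      exact Or.inr ⟨MvPolynomial.support_smul h5, h4⟩
  have h4 : ((lg (2 * c) (p - MvPolynomial.C a * r)).card : ℝ) ≤
      (lg c p).card + (lg c r).card := by
    exact_mod_cast (card_le_card h3).trans (card_union_le _ _)
  have h5 := lg_card hp
  have h6 := lg_card hr
  refine h4.trans ?_
  rw [← two_pow c hn]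
  have h7 : (0 : ℝ) ≤ (n : ℝ) ^ (c * Real.log n) := by linarith
  nlinarith

theorem few_sum {n : ℕ} {c : ℝ} (hc : 0 ≤ c) (hn : (1 : ℝ) ≤ n)
    (h2 : (n : ℝ) ≤ (n : ℝ) ^ (c * Real.log n)) {p : Fin n → MvPolynomial (Pairs n) ℝ}
    (hp : ∀ v, Few c (p v)) : Few (2 * c) (∑ v, p v) := by
  have hl := Real.log_nonneg hn
  have h1 : c * Real.log n ≤ 2 * c * Real.log n :=
    mul_le_mul_of_nonneg_right (by linarith) hl
  have h3 : lg (2 * c) (∑ v, p v) ⊆ univ.biUnion fun v => lg c (p v) := by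
    intro m hm
    unfold lg at hm
    rw [mem_filter] at hm
    have h4 := h1.trans_lt hm.2
    obtain ⟨v, hv, h5⟩ := mem_biUnion.1 (MvPolynomial.support_sum hm.1)
    refine mem_biUnion.2 ⟨v, hv, ?_⟩
    unfold lg
    rw [mem_filter]
    exact ⟨h5, h4⟩
  have h4 : ((lg (2 * c) (∑ v, p v)).card : ℝ) ≤ ∑ v, ((lg c (p v)).card : ℝ) := by
    exact_mod_cast (card_le_card h3).trans card_biUnion_le
  refine h4.trans ((sum_le_sum fun v _ => lg_card (hp v)).trans ?_)
  rw [sum_const, card_univ, Fintype.card_fin, nsmul_eq_mul, ← two_pow c hn]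
  exact mul_le_mul_of_nonneg_right h2 (by linarith)

theorem main (ε : ℝ) (hε : 0 < ε) (hε1 : ε ≤ 1) : ∃ (Δ : ℕ) (c : ℝ), 0 < c ∧ ∃ n₀ : ℕ,
    ∀ n ≥ n₀,
    (∀ 𝓢 : Finset (Finset (Pairs n)), (𝓢.card : ℝ) ≤ (n : ℝ) ^ (c * Real.log n) →
      ∃ (Ω : Type) (_ : Fintype Ω) (_ : Nonempty Ω) (G₀ G₁ : Ω → SimpleGraph (Fin n)),
      (∀ ω, MaxDeg Δ (G₀ ω) ∧ MaxDeg Δ (G₁ ω)) ∧
      (∀ ω, (G₁ ω).Colorable 2) ∧ (∀ ω, SmallInd ε (G₀ ω)) ∧
      ∀ S : Finset (Pairs n), (S ∈ 𝓢 ∨ (S.card : ℝ) ≤ c * Real.log n) →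
        (univ.filter fun ω => ∀ e ∈ S, (G₀ ω).Adj e.1.1 e.1.2).card =
          (univ.filter fun ω => ∀ e ∈ S, (G₁ ω).Adj e.1.1 e.1.2).card) ∧
    (∀ p : MvPolynomial (Pairs n) ℝ, Few c p →
      ∃ G, MaxDeg Δ G ∧ ((G.Colorable 2 ∧ 0 < ev p G) ∨ (SmallInd ε G ∧ ev p G ≤ 0))) ∧
    (∀ p r : MvPolynomial (Pairs n) ℝ, Few c p → Few c r → (∀ G, MaxDeg Δ G → 0 < ev r G) →
      ∃ G, MaxDeg Δ G ∧ ((G.Colorable 2 ∧ (2 - ε) * tau G < ev p G / ev r G) ∨
        (SmallInd ε G ∧ ev p G / ev r G < tau G))) ∧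
    ∀ (p : Fin n → MvPolynomial (Pairs n) ℝ) (μ : SimpleGraph (Fin n) → Finset (Fin n) → ℝ),
      (∀ v, Few c (p v)) → (∀ G, MaxDeg Δ G → CoverDist G (μ G)) →
      (∀ G, MaxDeg Δ G → ∀ v, ∑ A with v ∈ A, μ G A = ev (p v) G) →
      ∃ G, MaxDeg Δ G ∧ G.Colorable 2 ∧ (2 - ε) * tau G < ∑ A, μ G A * (A.card : ℝ) := by
  obtain ⟨Δ, c₁, hc₁, n₁, hn₁⟩ := family (ε / 4) (by linarith)
  obtain ⟨c, hc⟩ : ∃ c, c = c₁ / 4 := ⟨_, rfl⟩
  have hc0 : 0 < c := by rw [hc]; linarith
  have hcc : c₁ = 2 * (2 * c) := by rw [hc]; ring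
  obtain ⟨n₂, hn₂⟩ := exists_nat_gt (Real.exp (1 / c))
  refine ⟨Δ, c, hc0, n₁ + n₂ + 2, fun n hn => ?_⟩
  have hn2 : 2 ≤ n := by omega
  have hnR2 : (2 : ℝ) ≤ n := by exact_mod_cast hn2
  have hnR : (1 : ℝ) ≤ n := by linarith
  have hlog : 1 ≤ c * Real.log n := by
    have h1 : (n₂ : ℝ) ≤ n := by exact_mod_cast (by omega : n₂ ≤ n)
    have h2 : Real.exp (1 / c) ≤ n := hn₂.le.trans h1
    have h3 : 1 / c ≤ Real.log n := by
      rw [Real.le_log_iff_exp_le (by linarith)]
      exact h2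
    rw [div_le_iff₀ hc0] at h3
    linarith
  have hbig : (n : ℝ) ≤ (n : ℝ) ^ (c * Real.log n) := by
    calc (n : ℝ) = (n : ℝ) ^ (1 : ℝ) := (Real.rpow_one _).symm
      _ ≤ _ := Real.rpow_le_rpow_of_exponent_le hnR hlog
  have hmono : ∀ x y : ℝ, x ≤ y → (n : ℝ) ^ (x * Real.log n) ≤ (n : ℝ) ^ (y * Real.log n) :=
    fun x y h => Real.rpow_le_rpow_of_exponent_le hnR
      (mul_le_mul_of_nonneg_right h (Real.log_nonneg hnR))
  have hexp : (n : ℝ) ^ (c₁ * Real.log n) = Real.exp (c₁ * Real.log n ^ 2) := by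
    rw [Real.rpow_def_of_pos (by linarith)]
    congr 1
    ring
  have fam : ∀ 𝓢 : Finset (Finset (Pairs n)), (𝓢.card : ℝ) ≤ (n : ℝ) ^ (c₁ * Real.log n) →
      ∃ (Ω : Type) (_ : Fintype Ω) (_ : Nonempty Ω) (G₀ G₁ : Ω → SimpleGraph (Fin n)),
      (∀ ω, MaxDeg Δ (G₀ ω) ∧ MaxDeg Δ (G₁ ω)) ∧
      (∀ ω, (G₁ ω).Colorable 2) ∧ (∀ ω, SmallInd ε (G₀ ω)) ∧
      (∀ ω, (tau (G₁ ω) : ℝ) ≤ n / 2) ∧ (∀ ω, (1 - ε / 4) * n ≤ (tau (G₀ ω) : ℝ)) ∧
      ∀ S : Finset (Pairs n), (S ∈ 𝓢 ∨ (S.card : ℝ) ≤ c₁ * Real.log n) →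
        (univ.filter fun ω => ∀ e ∈ S, (G₀ ω).Adj e.1.1 e.1.2).card =
          (univ.filter fun ω => ∀ e ∈ S, (G₁ ω).Adj e.1.1 e.1.2).card := by
    intro 𝓢 h𝓢
    rw [hexp] at h𝓢
    obtain ⟨Ω, i1, i2, G₀, G₁, h1, h2, h3, h4⟩ := hn₁ n (by omega) 𝓢 h𝓢
    refine ⟨Ω, i1, i2, G₀, G₁, h1, h2, ?_, ?_, ?_, h4⟩
    · intro ω I hI
      refine (h3 ω I hI).trans ?_
      nlinarith
    · intro ω
      have h5 := tau_bip (h2 ω)
      have h6 : ((2 * tau (G₁ ω) : ℕ) : ℝ) ≤ n := by exact_mod_cast h5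
      push_cast at h6
      linarith
    · intro ω
      obtain ⟨A, hA, hcA⟩ := exists_tau (G₀ ω)
      have h5 := h3 ω Aᶜ (by
        intro u hu v hv huv
        rw [mem_compl] at hu hv
        rcases hA u v huv with h | h
        · exact hu h
        · exact hv h)
      have h6 : A.card ≤ n := (card_le_univ A).trans (by rw [Fintype.card_fin])
      rw [card_compl, Fintype.card_fin, Nat.cast_sub h6, hcA] at h5
      linarith
  -- polynomials
  have pol : ∀ P : MvPolynomial (Pairs n) ℝ, Few c₁ P →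
      ∃ (Ω : Type) (_ : Fintype Ω) (_ : Nonempty Ω) (G₀ G₁ : Ω → SimpleGraph (Fin n)),
      (∀ ω, MaxDeg Δ (G₀ ω) ∧ MaxDeg Δ (G₁ ω)) ∧
      (∀ ω, (G₁ ω).Colorable 2) ∧ (∀ ω, SmallInd ε (G₀ ω)) ∧
      (∀ ω, (tau (G₁ ω) : ℝ) ≤ n / 2) ∧ (∀ ω, (1 - ε / 4) * n ≤ (tau (G₀ ω) : ℝ)) ∧
      avg (fun ω => ev P (G₀ ω)) = avg (fun ω => ev P (G₁ ω)) := by
    intro P hP
    obtain ⟨Ω, i1, i2, G₀, G₁, h1, h2, h3, h4, h5, h6⟩ :=
      fam ((lg c₁ P).image fun m => m.support) (by
        refine le_trans ?_ (lg_card hP)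
        exact_mod_cast card_image_le)
    refine ⟨Ω, i1, i2, G₀, G₁, h1, h2, h3, h4, h5, avg_eq P fun m hm => h6 _ ?_⟩
    by_cases h : (m.support.card : ℝ) ≤ c₁ * Real.log n
    · exact Or.inr h
    · push Not at h
      exact Or.inl (mem_image_of_mem _ (mem_filter.2 ⟨hm, h⟩))
  have part3 : ∀ p r : MvPolynomial (Pairs n) ℝ, Few (2 * c) p → Few (2 * c) r →
      (∀ G, MaxDeg Δ G → 0 < ev r G) →
      ∃ G, MaxDeg Δ G ∧ ((G.Colorable 2 ∧ (2 - ε) * tau G < ev p G / ev r G) ∨
        (SmallInd ε G ∧ ev p G / ev r G < tau G)) := by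
    intro p r hp hr hpos
    by_contra hcon
    push Not at hcon
    obtain ⟨Ω, i1, i2, G₀, G₁, h1, h2, hsm, hτ₁, hτ₀, h5⟩ :=
      pol (p - MvPolynomial.C ((1 - ε / 2) * n) * r) (by
        rw [hcc]
        exact few_comb (by linarith) hnR
          (hnR2.trans (hbig.trans (hmono _ _ (by linarith)))) _ hp hr)
    have h6 : avg (fun ω => ev (p - MvPolynomial.C ((1 - ε / 2) * n) * r) (G₁ ω)) ≤ 0 := by
      refine avg_le fun ω => ?_
      rw [ev_comb]
      have h7 := (hcon (G₁ ω) (h1 ω).2).1 (h2 ω)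
      have h8 := hpos (G₁ ω) (h1 ω).2
      rw [div_le_iff₀ h8] at h7
      have h9 : (2 - ε) * (tau (G₁ ω) : ℝ) ≤ (1 - ε / 2) * n := by
        have := hτ₁ ω
        nlinarith
      have h10 := mul_le_mul_of_nonneg_right h9 h8.le
      linarith
    have h7 : 0 < avg (fun ω => ev (p - MvPolynomial.C ((1 - ε / 2) * n) * r) (G₀ ω)) := by
      refine lt_avg fun ω => ?_
      rw [ev_comb]
      have h7 := (hcon (G₀ ω) (h1 ω).1).2 (hsm ω)
      have h8 := hpos (G₀ ω) (h1 ω).1
      rw [le_div_iff₀ h8] at h7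
      have h9 : (1 - ε / 2) * n < (tau (G₀ ω) : ℝ) := by
        have := hτ₀ ω
        nlinarith
      have h10 := mul_lt_mul_of_pos_right h9 h8
      linarith
    linarith
  refine ⟨?_, ?_, ?_, ?_⟩
  · intro 𝓢 h𝓢
    obtain ⟨Ω, i1, i2, G₀, G₁, h1, h2, h3, -, -, h6⟩ := fam 𝓢 (h𝓢.trans (hmono _ _ (by linarith)))
    refine ⟨Ω, i1, i2, G₀, G₁, h1, h2, h3, fun S hS => h6 S ?_⟩
    rcases hS with hS | hS
    · exact Or.inl hS
    · exact Or.inr (hS.trans (mul_le_mul_of_nonneg_right (by linarith) (Real.log_nonneg hnR)))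
  · intro p hp
    by_contra hcon
    push Not at hcon
    obtain ⟨Ω, i1, i2, G₀, G₁, h1, h2, hsm, -, -, h5⟩ := pol p (few_mono (by linarith) hnR hp)
    have h6 : avg (fun ω => ev p (G₁ ω)) ≤ 0 :=
      avg_le fun ω => (hcon (G₁ ω) (h1 ω).2).1 (h2 ω)
    have h7 : 0 < avg (fun ω => ev p (G₀ ω)) :=
      lt_avg fun ω => (hcon (G₀ ω) (h1 ω).1).2 (hsm ω)
    linarith
  · intro p r hp hr hpos
    exact part3 p r (few_mono (by linarith) hnR hp) (few_mono (by linarith) hnR hr) hpos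
  · intro p μ hp hμ hpμ
    have hsum : ∀ G, MaxDeg Δ G → ev (∑ v, p v) G = ∑ A, μ G A * (A.card : ℝ) := by
      intro G hG
      have h5 : ev (∑ v, p v) G = ∑ v, ev (p v) G := by
        unfold ev
        rw [map_sum]
      rw [h5, sum_congr rfl fun v _ => (hpμ G hG v).symm]
      simp only [sum_filter]
      rw [sum_comm]
      refine sum_congr rfl fun A _ => ?_
      rw [← sum_filter, sum_const, nsmul_eq_mul, mul_comm]
      congr 2
      rw [filter_mem_eq_inter, univ_inter]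
    have hone : ∀ G : SimpleGraph (Fin n), ev (1 : MvPolynomial (Pairs n) ℝ) G = 1 := by
      intro G
      unfold ev
      rw [map_one]
    have hfone : Few (2 * c) (1 : MvPolynomial (Pairs n) ℝ) := by
      have h5 : lg (2 * c) (1 : MvPolynomial (Pairs n) ℝ) = ∅ := by
        unfold lg
        rw [filter_eq_empty_iff]
        intro m hm
        have h6 : m = 0 := by
          by_contra h7
          rw [MvPolynomial.mem_support_iff, MvPolynomial.coeff_one, if_neg (Ne.symm h7)] at hm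
          exact hm rfl
        rw [h6, Finsupp.support_zero, card_empty, Nat.cast_zero, not_lt]
        exact mul_nonneg (by linarith) (Real.log_nonneg hnR)
      have h6 : ((lg (2 * c) (1 : MvPolynomial (Pairs n) ℝ)).card : ℝ) ≤
          (n : ℝ) ^ (2 * c * Real.log n) := by
        rw [h5, card_empty, Nat.cast_zero]
        positivity
      exact h6
    obtain ⟨G, hG, h5 | h5⟩ := part3 (∑ v, p v) 1 (few_sum hc0.le hnR hbig hp) hfone
      (fun G _ => by rw [hone]; exact one_pos)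
    · rw [hone, div_one, hsum G hG] at h5
      exact ⟨G, hG, h5.1, h5.2⟩
    · exfalso
      rw [hone, div_one, hsum G hG] at h5
      have h6 : (tau G : ℝ) ≤ ∑ A, μ G A * (A.card : ℝ) := by
        obtain ⟨h7, h8, h9⟩ := hμ G hG
        calc (tau G : ℝ) = ∑ A, μ G A * (tau G : ℝ) := by rw [← sum_mul, h8, one_mul]
          _ ≤ _ := by
            refine sum_le_sum fun A _ => ?_
            by_cases h10 : μ G A = 0
            · rw [h10, zero_mul, zero_mul]
            · refine mul_le_mul_of_nonneg_left ?_ (h7 A)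
              exact_mod_cast tau_le (h9 A h10)
      linarith [h5.2]

/-- For every `0 < ε ≤ 1` there are a degree bound `Δ` and `c > 0` such that the following holds for
all large `n`. Polynomials are real polynomials in the adjacency bits of graphs with `n` vertices,
with arbitrary coefficients; `Few c p` says that at most `n ^ (c log n)` monomials of `p` contain
more than `c log n` different variables (so polynomials of degree at most `c log n`, and polynomials
of any degree with at most `n ^ (c log n)` monomials, are allowed).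

(1) For every family `𝓢` of at most `n ^ (c log n)` sets of pairs of vertices there are two random
graphs `G₀`, `G₁` with `n` vertices and maximum degree at most `Δ` (uniformly distributed families
with a common index set) such that `G₁` is always bipartite, `G₀` never has an independent set with
more than `ε n` vertices, and every member of `𝓢`, and every set of at most `c log n` pairs, is
contained in the edge set with exactly the same probability for both.

(2) No polynomial `p` with `Few c p` is nonpositive on all bipartite graphs and positive on all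
graphs without independent sets of more than `ε n` vertices, of maximum degree at most `Δ`.

(3) No quotient `p / r` of such polynomials, with `r > 0` on all graphs of maximum degree at most
`Δ`, satisfies `τ ≤ p / r` on those without independent sets of more than `ε n` vertices and
`p / r ≤ (2 - ε) τ` on the bipartite ones (`τ` is the vertex cover number).

(4) Consider a randomised procedure which gives a vertex cover of every graph of maximum degree at
most `Δ`. If for every vertex the probability that it is taken is such a polynomial in the adjacency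
bits, then the mean size of the cover is larger than `(2 - ε) τ` for some bipartite graph of maximum
degree at most `Δ`.

(5) Conversely, if `ε < 1 / 2` then for some `C` and all `n ≥ 2` a polynomial of degree at most
`C log n`, with at most `n ^ (C log n)` monomials, is zero on all bipartite graphs and at least `n`
on all graphs without independent sets of more than `ε n` vertices, of any degrees (the number of
closed walks of some odd length, times `n`); so (2) and (3) fail with `C` instead of `c`. -/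
theorem result (ε : ℝ) (hε : 0 < ε) (hε1 : ε ≤ 1) :
    (∃ (Δ : ℕ) (c : ℝ), 0 < c ∧ ∃ n₀ : ℕ,
    ∀ n ≥ n₀,
    (∀ 𝓢 : Finset (Finset (Pairs n)), (𝓢.card : ℝ) ≤ (n : ℝ) ^ (c * Real.log n) →
      ∃ (Ω : Type) (_ : Fintype Ω) (_ : Nonempty Ω) (G₀ G₁ : Ω → SimpleGraph (Fin n)),
      (∀ ω, MaxDeg Δ (G₀ ω) ∧ MaxDeg Δ (G₁ ω)) ∧
      (∀ ω, (G₁ ω).Colorable 2) ∧ (∀ ω, SmallInd ε (G₀ ω)) ∧
      ∀ S : Finset (Pairs n), (S ∈ 𝓢 ∨ (S.card : ℝ) ≤ c * Real.log n) →
        (univ.filter fun ω => ∀ e ∈ S, (G₀ ω).Adj e.1.1 e.1.2).card =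
          (univ.filter fun ω => ∀ e ∈ S, (G₁ ω).Adj e.1.1 e.1.2).card) ∧
    (∀ p : MvPolynomial (Pairs n) ℝ, Few c p →
      ∃ G, MaxDeg Δ G ∧ ((G.Colorable 2 ∧ 0 < ev p G) ∨ (SmallInd ε G ∧ ev p G ≤ 0))) ∧
    (∀ p r : MvPolynomial (Pairs n) ℝ, Few c p → Few c r → (∀ G, MaxDeg Δ G → 0 < ev r G) →
      ∃ G, MaxDeg Δ G ∧ ((G.Colorable 2 ∧ (2 - ε) * tau G < ev p G / ev r G) ∨
        (SmallInd ε G ∧ ev p G / ev r G < tau G))) ∧
    ∀ (p : Fin n → MvPolynomial (Pairs n) ℝ) (μ : SimpleGraph (Fin n) → Finset (Fin n) → ℝ),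
      (∀ v, Few c (p v)) → (∀ G, MaxDeg Δ G → CoverDist G (μ G)) →
      (∀ G, MaxDeg Δ G → ∀ v, ∑ A with v ∈ A, μ G A = ev (p v) G) →
      ∃ G, MaxDeg Δ G ∧ G.Colorable 2 ∧ (2 - ε) * tau G < ∑ A, μ G A * (A.card : ℝ)) ∧
    (ε < 1 / 2 → ∃ C : ℝ, ∀ n ≥ 2, ∃ p : MvPolynomial (Pairs n) ℝ,
      (p.totalDegree : ℝ) ≤ C * Real.log n ∧
      (p.support.card : ℝ) ≤ (n : ℝ) ^ (C * Real.log n) ∧
      ∀ G : SimpleGraph (Fin n), (G.Colorable 2 → ev p G = 0) ∧
        (SmallInd ε G → (n : ℝ) ≤ ev p G)) :=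
  ⟨main ε hε hε1, fun h => optimal ε hε h⟩

end Pool.Agent.Results.MP_cff830_lc.QuasipolynomialSparseFunctions
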