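import Pool.Agent.J4H23.VD.AMain
import Pool.Agent.J4H23.VD.BMain
import Pool.Agent.J4H57.VD.Ain
import Pool.Agent.J4H94.VD.Bid
import Pool.Agent.J4H53.VD.Apr
import Pool.Agent.J4H42.VD.Aco
import Pool.Agent.J4H98.VD.Apl
import Pool.Agent.J4H97.VD.Bpl

/-!
# Smoothed analysis of weighted vertex cover: a dichotomy

Definitions (`WG`, `vs`, `IsWG`, `IsCover`, `wgt`, `Appr`, `wgF`, `wn`, `SmoothedApprox`, `RandApprox` in
`Pool/Agent/J4H23/VD/Stm.lean`; `wt`, `pr` in `Pool/Agent/J4H23/SB/Stm.lean`; `nz` in
`Pool/Agent/J4H23/SB/Nh.lean`; `PolyTime`, `bits` in `Pool/Agent/NPC/Defs.lean`):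

* `WG`: weighted graphs, given by the list of the vertices with their weights (natural numbers in
  binary) and the list of the edges; `vs G`: the vertices; `IsWG G`: `G` is a finite simple graph;
* `Appr c G C`: `C` is a vertex cover of `G` of at most `c` times the least weight;
* `pr q P`: the probability of the property `P` of the random set `X` of pairs, if the pair `e` is in `X`
  with probability `q e`, independently; `wgF m Y w`: the graph with the vertices `0, …, m - 1`, the
  edges `(i, j)`, `i < j`, in `Y` and the weights `w`;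
* `wn m H w J r`: the host graph `H` with the weights `w` and with the noise given by the random string
  `r`, in which every pair is an edge with probability `2 ^ (- J)`;
* `SmoothedApprox k c`: a randomised polynomial-time `c`-approximation for all noisy hosts with `m = 2 ^ (k s)`
  vertices, noise probability `2 ^ (- s) = m ^ (- 1 / k)`;
* `RandApprox c`: a randomised polynomial-time `c`-approximation for all weighted graphs.

The theorem:

1. for all `C`, `N` there is a deterministic polynomial-time `(1 + 1 / N)`-approximation for weighted vertex cover on the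
   graphs without independent sets of more than `C log n` vertices (`size n` is the number of
   binary digits of `n`);
2. noise of constant density `l > 0`: for all `k`, `N` there is a deterministic polynomial-time algorithm
   such that with probability at least `1 - m ^ (- k)` over the noise `X` it computes a
   `(1 + 1 / N)`-approximate cover for ALL supergraphs `Y ⊇ X` and ALL weights;
3. noise of density `m ^ (- 1 / k)`, for any fixed `k`, does not help at all: for every ratio `c` a randomised
   `c`-approximation for all noisy hosts gives a randomised `c`-approximation for all weighted graphs.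

Proof of 1: if the independent sets have at most `L` vertices then the best independent set
among the `L (N + 1)` heaviest vertices leaves a cover of weight at most `(1 + 1 / N) OPT`, and there
are only polynomially many subsets of these vertices.  Proof of 3: `G` is put into the corner of a host
whose other vertices have weight zero; the noise does not meet the pairs inside `G`.
-/

set_option autoImplicit false

namespace Pool.Agent.Results.MP_cff830_lc.SmoothedDichotomy

open Pool.Agent.NPC Pool.Agent.J4H23.SB Pool.Agent.J4H23.VD

theorem result :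
    (∀ C N : ℕ, 1 ≤ N → ∃ (F : WG → List ℕ) (A : List Bool → List Bool), PolyTime A ∧
      (∀ x, A (bits x) = bits (F x)) ∧ ∀ G : WG, IsWG G →
        (∀ I : Finset ℕ, I ⊆ (vs G).toFinset → (∀ e ∈ G.2, ¬ (e.1 ∈ I ∧ e.2 ∈ I)) →
          I.card ≤ C * G.1.length.size) → Appr (1 + 1 / N) G (F G)) ∧
    (∀ (l : ℝ) (k N : ℕ), 0 < l → l ≤ 1 → 1 ≤ N →
      ∃ (F : WG → List ℕ) (A : List Bool → List Bool), PolyTime A ∧
        (∀ x, A (bits x) = bits (F x)) ∧ ∃ m₀ : ℕ, ∀ m ≥ m₀, ∀ q : Fin m × Fin m → ℝ,
          (∀ e, l ≤ q e ∧ q e ≤ 1) →
          1 - 1 / (m : ℝ) ^ k ≤ pr q (fun X => ∀ Y : Finset (Fin m × Fin m), X ⊆ Y →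
            ∀ w : Fin m → ℕ, Appr (1 + 1 / N) (wgF m Y w) (F (wgF m Y w)))) ∧
    ∀ (k : ℕ) (c : ℝ), 1 ≤ k → 0 ≤ c → SmoothedApprox k c → RandApprox c :=
  ⟨fun C N hN => a_det Pool.Agent.J4H98.VD.t_APL Pool.Agent.J4H42.VD.t_ACO C N hN,
    fun l k N hl hl1 hN => a_main Pool.Agent.J4H98.VD.t_APL Pool.Agent.J4H42.VD.t_ACO
      Pool.Agent.J4H57.VD.t_AIN Pool.Agent.J4H53.VD.t_APR l k N hl hl1 hN,
    fun k c hk hc h => b_main Pool.Agent.J4H97.VD.t_BPL Pool.Agent.J4H94.VD.t_BID k hk c hc h⟩

end Pool.Agent.Results.MP_cff830_lc.SmoothedDichotomy
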